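import Pool.Agent.Results.MP_d03a5a_nt.EllipticTorsionBogomolov

/-!
# A relative Lehmer bound for elliptic curves over infinite Galois extensions and their torsion fields

Let `W` be an elliptic curve over a number field `K`, which has potentially good, supersingular reduction at a prime `𝔭` of
`K` above the prime number `p`. Let `S` be a Galois extension of `K`, finite or infinite, let `F₀ = S(Γ)` be generated over
`S` by the coordinates of the points of a set `Γ` of torsion points of `W` of order prime to `p`, and let `P` be a point of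
infinite order of `W` over an extension `F` of `F₀` of degree `D`. Then the Néron-Tate height of `P` is at least
`exp (- C * sqrt (1 + log D)) / (C * e * D)`, if all ramification indices of `S` above `𝔭` are at most `e` and the `n`-th
powers of the elements of the decomposition groups above `𝔭` in the finite quotients of the Galois group of `S` have at most
`B` conjugates. Here `C` depends on `W`, `𝔭`, `n` and `B` only. The condition on conjugates holds with `B = 1` if the `n`-th
powers of all elements of the Galois groups are central, for example for abelian extensions (`n = 1`) and for extensions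
whose Galois group has the exponent `n`.

This is the inequality of the relative Lehmer problem for the points `P` of `W`, or for the subvarieties `{P} × G'` of
`W × G'`, and for groups `Γ × Γ'` with `S = K(Γ')`, up to the factor `exp (- C * sqrt (1 + log D))`. The definitions are
those of the starting file `EllipticTorsionBogomolov` of `MP_d03a5a_nt`, which states that the heights are bounded from below
by a positive constant if `D` is bounded; the starting file `EllipticTorsionFields` of this problem is the case `S = K`.
-/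

set_option autoImplicit false

namespace Pool.Agent.Results.MP_187c26_nt.EllipticOverGaloisExtensions

open NumberField Module Filter Topology Pool.Agent.Results.MP_d03a5a_nt.EllipticTorsionBogomolov
open scoped Pointwise

/-- The inequality of the relative Lehmer problem, up to the factor `exp (- C * sqrt (1 + log D))`, for all points of
infinite order of the elliptic curve `W` over finite extensions `F` of the field `F₀`, `D = [F : F₀]`: the points over all
number fields `L` which embed into `F` over `K`. -/
def LehmerOver {K : Type} [Field K] [NumberField K] (W : WeierstrassCurve.Affine K) (p : ℕ) {Ω : Type} [Field Ω]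
    [Algebra K Ω] (F₀ : IntermediateField K Ω) (C : ℝ) (e : ℕ) : Prop :=
  ∀ (F : IntermediateField F₀ Ω) [FiniteDimensional F₀ F],
    HeightsAtLeast W p F (Real.exp (-(C * Real.sqrt (1 + Real.log (finrank F₀ F)))) / (C * e * finrank F₀ F))

/-- The number fields in `S` which are Galois over `K` have Galois groups in which all `n`-th powers are central. -/
def CentralPowers {K : Type} [Field K] [NumberField K] (S : Type) [Field S] [Algebra K S] (n : ℕ) : Prop :=
  ∀ (E : Type) [Field E] [NumberField E] [Algebra K E] [IsGalois K E], Nonempty (E →ₐ[K] S) →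
    ∀ σ τ : Gal(E/K), τ * σ ^ n = σ ^ n * τ

/-- The number fields in `S` which are Galois over `K` have ramification indices at most `e` above `𝔭`. -/
def RamificationAtMost {K : Type} [Field K] [NumberField K] (𝔭 : Ideal (𝓞 K)) (S : Type) [Field S] [Algebra K S]
    (e : ℕ) : Prop :=
  ∀ (E : Type) [Field E] [NumberField E] [Algebra K E] [IsGalois K E], Nonempty (E →ₐ[K] S) →
    ∀ 𝔓 : Ideal (𝓞 E), 𝔓.IsMaximal → 𝔓.LiesOver 𝔭 → 𝔓.ramificationIdx (𝓞 K) ≤ e

lemma admissible_of_central {K : Type} [Field K] [NumberField K] {𝔭 : Ideal (𝓞 K)} {S : Type} [Field S] [Algebra K S]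
    {n e : ℕ} (h : CentralPowers (K := K) S n) (he : RamificationAtMost 𝔭 S e) : Admissible 𝔭 S n 1 e := by
  intro E _ _ _ _ hE
  refine ⟨fun 𝔓 _ _ σ _ => ?_, he E hE⟩
  have h1 : (Set.range fun g : Gal(E/K) => g * σ ^ n * g⁻¹) = {σ ^ n} := by
    ext x
    constructor
    · rintro ⟨g, rfl⟩
      have h2 := h E hE σ g
      show g * σ ^ n * g⁻¹ = σ ^ n
      rw [h2, mul_assoc, mul_inv_cancel, mul_one]
    · intro hx
      rw [Set.mem_singleton_iff.mp hx]
      exact ⟨1, by simp⟩
  rw [h1, Set.ncard_singleton]

theorem main (K : Type) [Field K] [NumberField K] (W : WeierstrassCurve.Affine K)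
    [W.IsElliptic] (p : ℕ) (hp : p.Prime) (𝔭 : Ideal (𝓞 K))
    (hss : PotentiallySupersingular W 𝔭 p) (n B : ℕ) (hn : 1 ≤ n) :
    ∃ C : ℝ, 0 < C ∧ ∀ e : ℕ, 1 ≤ e → ∀ (Ω : Type) [Field Ω] [Algebra K Ω] [Algebra.IsAlgebraic K Ω]
      (S F₀ : IntermediateField K Ω) [IsGalois K S], Admissible 𝔭 S n B e → GeneratedByTorsion W p S F₀ →
      LehmerOver W p F₀ C e := by
  classical
  obtain ⟨F, ⟨hF, hmul⟩, K', i1, i2, i3, A, G, v, hA, hG, hconj, hv𝔭, hv, h1, h2, h3⟩ := hss
  subst hv𝔭
  have hxc : ∀ (M : Type) [Field M] (V : WeierstrassCurve.Affine M) (Q : V.Point),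
      xCoord Q = Pool.Agent.Y740.RL.xc Q := by
    intro M _ V Q
    cases Q <;> rfl
  have hmul' : ∀ (M : Type) [Field M] [NumberField M] [Algebra K M] [DecidableEq M]
      (Q : (W.baseChange M).Point), ∃ c : M, c ≠ 0 ∧
      Pool.Agent.H420R3.act F (Pool.Agent.Y740.RL.xc Q) =
        c • Pool.Agent.Y740.RL.xc (p • Q) := by
    intro M _ _ _ dM Q
    obtain ⟨c, hc, hc'⟩ := hmul M Q
    rw [hxc, hxc] at hc'
    have hd : dM = Classical.decEq M := Subsingleton.elim _ _
    subst hd
    exact ⟨c, hc, hc'⟩
  obtain ⟨C, hC, hmain⟩ := Pool.Agent.Y740.RL.bogE W hp F hF K' A hA G hG hconj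
    v hv ⟨h1, h2, h3⟩ hmul' B n hn
  refine ⟨2 * C, by positivity, ?_⟩
  intro e he Ω _ _ _ S F₀ _ hS hF₀ M iM L _ _ _ hι P hP
  obtain ⟨ι⟩ := hι
  obtain ⟨Γ, hΓ, hF₀⟩ := hF₀
  obtain ⟨h, hlim, hb⟩ := hmain Ω S e (fun E _ _ _ _ hE => hS E hE) Γ hΓ F₀ hF₀ M L ι P hP
  have he1 : (1 : ℝ) ≤ e := by exact_mod_cast he
  have h5 : (1 : ℝ) ≤ finrank F₀ M := by
    exact_mod_cast (finrank_pos : 0 < finrank F₀ M)
  refine ⟨h / 2, ?_, ?_⟩
  · unfold IsNeronTateHeight
    refine (hlim.div_const 2).congr fun k => ?_
    rw [hxc, div_div]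
    congr 1
    ring
  · refine le_trans ?_ (div_le_div_of_nonneg_right hb (by norm_num : (0 : ℝ) ≤ 2))
    rw [div_div]
    have h6 : C * Real.sqrt (1 + Real.log (finrank F₀ M)) ≤ 2 * C * Real.sqrt (1 + Real.log (finrank F₀ M)) := by
      have : 0 ≤ C * Real.sqrt (1 + Real.log (finrank F₀ M : ℝ)) := by positivity
      linarith
    have h7 : C * e * (finrank F₀ M : ℝ) * 2 = 2 * C * e * (finrank F₀ M : ℝ) := by ring
    rw [h7]
    gcongr

/-- Let `W` be an elliptic curve over the number field `K` with potentially good, supersingular reduction at the prime `𝔭`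
above `p`, and let `n ≥ 1`.
(1) For every `B` there is a constant `C` such that for all `e ≥ 1`, all Galois extensions `S` of `K` which satisfy the
condition `Admissible 𝔭 S n B e`, and all fields `F₀` generated over `S` by coordinates of torsion points of `W` of order
prime to `p`, the points of infinite order of `W` over extensions of `F₀` of degree `D` have Néron-Tate height at least
`exp (- C * sqrt (1 + log D)) / (C * e * D)`.
(2) There is a constant `C` such that this holds for all Galois extensions `S` of `K` with ramification indices at most `e`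
above `𝔭`, in the Galois groups of which (of the number fields in `S`) all `n`-th powers are central. -/
theorem result (K : Type) [Field K] [NumberField K] (W : WeierstrassCurve.Affine K)
    [W.IsElliptic] (p : ℕ) (hp : p.Prime) (𝔭 : Ideal (𝓞 K))
    (hss : PotentiallySupersingular W 𝔭 p) (n : ℕ) (hn : 1 ≤ n) :
    (∀ B : ℕ, ∃ C : ℝ, 0 < C ∧ ∀ e : ℕ, 1 ≤ e → ∀ (Ω : Type) [Field Ω] [Algebra K Ω] [Algebra.IsAlgebraic K Ω]
      (S F₀ : IntermediateField K Ω) [IsGalois K S], Admissible 𝔭 S n B e → GeneratedByTorsion W p S F₀ →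
      LehmerOver W p F₀ C e) ∧
    (∃ C : ℝ, 0 < C ∧ ∀ e : ℕ, 1 ≤ e → ∀ (Ω : Type) [Field Ω] [Algebra K Ω] [Algebra.IsAlgebraic K Ω]
      (S F₀ : IntermediateField K Ω) [IsGalois K S], CentralPowers (K := K) S n → RamificationAtMost 𝔭 S e →
      GeneratedByTorsion W p S F₀ → LehmerOver W p F₀ C e) := by
  refine ⟨fun B => main K W p hp 𝔭 hss n B hn, ?_⟩
  obtain ⟨C, hC, h⟩ := main K W p hp 𝔭 hss n 1 hn
  exact ⟨C, hC, fun e he Ω _ _ _ S F₀ _ hc hr hF₀ => h e he Ω S F₀ (admissible_of_central hc hr) hF₀⟩

end Pool.Agent.Results.MP_187c26_nt.EllipticOverGaloisExtensions
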