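import Mathlib
import Pool.Agent.Q188.RV.Top

/-!
# Rémond's inequality relative to any field, at points with many local or real conjugates

Let `x = (x_1, …, x_n)` be a point with coordinates in the field `Q̄` of algebraic numbers,
`h = h(x_1) + … + h(x_n)` its height. Let `B ⊆ Q̄` be any subfield, for instance `B = K(Γ)` for a
number field `K` and any subgroup `Γ` of `𝔾_m^n (Q̄)`, of finite rank or not. Let
`D = [B(x) : B]` and let `δ ≥ 1` be an integer such that no nonzero polynomial over `B` with all
partial degrees less than `δ` vanishes at `x`. (The largest such `δ` is, up to factors depending on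
`n` only, the obstruction index of `x` over `B`; it is at most `D ^ (1 / n)`.)

Number fields. There is a number field `k ⊆ B` with `[k(x) : k] = D`. Let `k` be any such field
(below, `k ⊆ F = k(x)` are abstract number fields, `F` is embedded in `Q̄` by `φ`, and `B` contains
the image of `k`).

Local and real conjugates. Let `K_i` be finitely many (or no) nonarchimedean local fields of
characteristic zero over distinct primes `p_i`, with ramification index `e_i` and residue field with
`q_i` elements. Let `T_i` be a set of embeddings of `k(x)` in an algebraic closure of `K_i` that send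
the coordinates of `x` to integers of `K_i`, and let `T_0` be a set of embeddings of `k(x)` in `ℂ`
that send the coordinates of `x` to real numbers. For each `T` of them let `m` be the number of its
elements divided by `[k : ℚ]`, that is, the mean over the embeddings `τ` of `k` of the number `r_τ`
of the elements of `T` that extend `τ`, and let `M` be the mean of `r_τ ^ (1 + 1 / n)`; so `M` is
at least `m ^ (1 + 1 / n)`, and `M` is much larger if the elements of `T` lie over few embeddings
of `k`. Put `X = ∑ (log p_i / (e_i q_i)) M_i + M_0 / (12 log (2 D + 2))`. Then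

* `∑ (2 log p_i / (e_i q_i)) (n / (n + 1) M_i - (n (q_i - 1) + 2) m_i)
    + M_0 / (24 log (2 D + 2)) ≤ D log D + 7 n m_0 + 4 (D ^ 2 / δ ^ (n - 1)) h`;
* if `M_i ≥ (4 n q_i + 8) m_i` and `X ≥ 4 (D log D + 7 n m_0)`, then
  `h ≥ δ ^ (n - 1) X / (16 D ^ 2)`, and `δ h ≥ (κ / 4) log D` when `δ ^ n ≥ κ D`.

The same bounds hold without reference to `k` with `m_i = ρ_i D` and `M_i = (ρ_i D) ^ (1 + 1 / n)`,
where `ρ_i` is the proportion of a set of embeddings of `ℚ(x)` in `K_i`, and `ρ_0` the proportion of
a set of embeddings of `ℚ(x)` in `ℝ`, among all the `[ℚ(x) : ℚ]` embeddings.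

So, for every `Γ`, Rémond's inequality relative to `K(Γ)` holds, with a logarithm to spare, for
all points of maximal obstruction index `δ ≥ (κ D) ^ (1 / n)` over `K(Γ)` such that the proportion
of the conjugates with coordinates in the integers of some `K_i` is at least about
`((log D) ^ n / D) ^ (1 / (n + 1))`, `D` being the degree over `K(Γ)`, or at least about `log D`
divided by `D ^ (1 / n)` if they lie over few embeddings of `k`.

The method: a linear version of a theorem of Olson shows that the monomials with exponents at most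
`2 D / δ ^ (n - 1)` contain a basis of `k(x)` over `k`. The norm of its relative discriminant is the
square of the determinant of a block matrix with a block for each embedding of `k`. It is bounded
above by Hadamard's inequality for each block, and expanding the rows of the conjugates over
`K_i` in all the blocks at the same time along Newton polynomials in `n` variables shows that it is
divisible by a high power of `p_i`: two rows collide only if they are in the same block.
-/

set_option autoImplicit false

open Polynomial Module NumberField ValuativeRel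

universe v

namespace Pool.Agent.Results.MP_187c26_nt.RelativeLocalConjugates

/-- the field `Q̄` of algebraic numbers -/
abbrev Qb : Type := AlgebraicClosure ℚ

/-- A nonarchimedean local field `K` of characteristic zero (in the sense of Mathlib) with the
prime number `p` below it and its ramification index `e`, so `p 𝒪 = 𝔪 ^ e`. -/
structure Place : Type 1 where
  p : ℕ
  hp : p.Prime
  K : Type
  [fld : Field K]
  [val : ValuativeRel K]
  [top : TopologicalSpace K]
  [loc : IsNonarchimedeanLocalField K]
  [char0 : CharZero K]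
  e : ℕ
  he : 1 ≤ e
  ram : Ideal.span {((p : ℕ) : 𝒪[K])} = 𝓂[K] ^ e

attribute [instance] Place.fld Place.val Place.top Place.loc Place.char0

/-- the number of elements of the residue field -/
noncomputable def Place.q (P : Place) : ℕ := Nat.card 𝓀[P.K]

/-- `f_j` is an irreducible polynomial with integer coefficients with the zero `x_j` -/
def IsMin {F : Type} [Field F] {n : ℕ} (x : Fin n → F) (f : Fin n → ℤ[X]) : Prop :=
  ∀ j, Irreducible (f j) ∧ aeval (x j) (f j) = 0

/-- The height `∑ h(x_j)` of a point whose coordinates are zeros of the irreducible polynomials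
`f_j` with integer coefficients: `h(x_j)` is the logarithm of the Mahler measure of `f_j` divided
by its degree, the absolute logarithmic Weil height of `x_j`. -/
noncomputable def height {n : ℕ} (f : Fin n → ℤ[X]) : ℝ :=
  ∑ j, Real.log ((f j).map (Int.castRingHom ℂ)).mahlerMeasure / (f j).natDegree

/-- no nonzero polynomial over `B` with all partial degrees less than `δ` vanishes at `y` -/
def NoRelation {n : ℕ} (B : IntermediateField ℚ Qb) (y : Fin n → Qb) (δ : ℕ) : Prop :=
  ∀ G : MvPolynomial (Fin n) B, G ≠ 0 → (∀ j, G.degreeOf j < δ) → MvPolynomial.aeval y G ≠ 0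

/-- the degree `[B(y) : B]` -/
noncomputable def deg {n : ℕ} (B : IntermediateField ℚ Qb) (y : Fin n → Qb) : ℕ :=
  finrank B (IntermediateField.adjoin B (Set.range y))

/-- the mean over the embeddings of `k` of the number of the elements of the set `T` of embeddings
of `F` that extend it -/
noncomputable def mean (k : Type) {F Ω : Type} [Field k] [NumberField k] [Field F] [Algebra k F]
    [Field Ω] (T : Finset (F →+* Ω)) : ℝ :=
  T.card / finrank ℚ k

open Classical in
/-- the number of the elements of `T` with the same restriction to `k` as `σ` -/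
noncomputable def same (k : Type) {F Ω : Type} [Field k] [Field F] [Algebra k F] [Field Ω]
    (T : Finset (F →+* Ω)) (σ : F →+* Ω) : ℕ :=
  (T.filter fun τ => τ.comp (algebraMap k F) = σ.comp (algebraMap k F)).card

/-- the mean over the embeddings of `k` of the `(1 + 1 / n)`-th power of the number of the elements
of `T` that extend it, that is, the sum of `r_σ ^ (1 / n)` over the elements `σ` of `T`, divided by
`[k : ℚ]`, where `r_σ` is the number of the elements of `T` with the same restriction to `k` -/
noncomputable def moment (k : Type) {F Ω : Type} [Field k] [NumberField k] [Field F] [Algebra k F]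
    [Field Ω] (n : ℕ) (T : Finset (F →+* Ω)) : ℝ :=
  (∑ σ ∈ T, (same k T σ : ℝ) ^ (1 / (n : ℝ))) / finrank ℚ k

/-- the sum `X` -/
noncomputable def locSum {ι : Type v} [Fintype ι] (P : ι → Place) (M : ι → ℝ) (M0 D : ℝ) : ℝ :=
  ∑ i, Real.log (P i).p / ((P i).e * (P i).q) * M i + M0 / (12 * Real.log (2 * D + 2))

/-- the sum on the left of the first inequality -/
noncomputable def gainSum (n : ℕ) {ι : Type v} [Fintype ι] (P : ι → Place) (m M : ι → ℝ)
    (M0 D : ℝ) : ℝ :=
  ∑ i, 2 * Real.log (P i).p / ((P i).e * (P i).q) *
    ((n : ℝ) / (n + 1) * M i - (n * (((P i).q : ℝ) - 1) + 2) * m i) +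
    M0 / (24 * Real.log (2 * D + 2))

/-- the two bounds -/
def Bounds (n : ℕ) {ι : Type v} [Fintype ι] (P : ι → Place) (m M : ι → ℝ)
    (m0 M0 D : ℝ) (δ : ℕ) (h : ℝ) : Prop :=
  gainSum n P m M M0 D ≤ D * Real.log D + 7 * n * m0 + 4 * (D ^ 2 / δ ^ (n - 1)) * h ∧
  ((∀ i, (4 * n * (P i).q + 8) * m i ≤ M i) →
    4 * (D * Real.log D + 7 * n * m0) ≤ locSum P M M0 D →
    locSum P M M0 D ≤ 16 * (D ^ 2 / δ ^ (n - 1)) * h ∧
      ∀ κ : ℝ, 0 < κ → κ * D ≤ δ ^ n → κ / 4 * Real.log D ≤ δ * h)

/-- the elements of `T` send the coordinates of `x` to integers of the local field -/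
def IsLocal {F : Type} [Field F] {n : ℕ} (x : Fin n → F) (P : Place)
    (T : Finset (F →+* AlgebraicClosure P.K)) : Prop :=
  ∀ σ ∈ T, ∀ j, ∃ z : 𝒪[P.K], algebraMap 𝒪[P.K] (AlgebraicClosure P.K) z = σ (x j)

/-- the elements of `T` send the coordinates of `x` to real numbers -/
def IsRealSet {F : Type} [Field F] {n : ℕ} (x : Fin n → F) (T : Finset (F →+* ℂ)) : Prop :=
  ∀ σ ∈ T, ∀ j, ∃ t : ℝ, (t : ℂ) = σ (x j)

/-- The bounds in terms of the embeddings of the number field `F = k(x)` and of `k`, where `F` is
embedded in `Q̄` by `φ`, the field `B` contains the image of `k`, and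
`[F : k] = [B(φ(x)) : B]`. -/
def BlockBounds (n : ℕ) (B : IntermediateField ℚ Qb) (δ : ℕ) : Prop :=
  ∀ (k F : Type) [Field k] [NumberField k] [Field F] [NumberField F] [Algebra k F]
    (x : Fin n → F) (φ : F →+* Qb) (f : Fin n → ℤ[X]), IsMin x f →
    Algebra.adjoin k (Set.range x) = ⊤ → (∀ c : k, φ (algebraMap k F c) ∈ B) →
    finrank k F = deg B (fun j => φ (x j)) → NoRelation B (fun j => φ (x j)) δ →
    ∀ (ι : Type v) [Fintype ι] (P : ι → Place), (Function.Injective fun i => (P i).p) →
    ∀ (T : ∀ i, Finset (F →+* AlgebraicClosure (P i).K)) (T0 : Finset (F →+* ℂ)),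
      (∀ i, IsLocal x (P i) (T i)) → IsRealSet x T0 →
      Bounds n P (fun i => mean k (T i)) (fun i => moment k n (T i)) (mean k T0) (moment k n T0)
        (finrank k F) δ (height f)

/-- The bounds in terms of the proportions of the embeddings of the number field `F = ℚ(x)`, which
is embedded in `Q̄` by `φ`; here `D = [B(φ(x)) : B]`. -/
def ProportionBounds (n : ℕ) (B : IntermediateField ℚ Qb) (δ : ℕ) : Prop :=
  ∀ (F : Type) [Field F] [NumberField F] (x : Fin n → F) (φ : F →+* Qb) (f : Fin n → ℤ[X]) (D : ℝ),
    IsMin x f → Algebra.adjoin ℚ (Set.range x) = ⊤ → D = deg B (fun j => φ (x j)) →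
    NoRelation B (fun j => φ (x j)) δ →
    ∀ (ι : Type v) [Fintype ι] (P : ι → Place), (Function.Injective fun i => (P i).p) →
    ∀ (T : ∀ i, Finset (F →+* (P i).K)) (T0 : Finset (F →+* ℝ)),
      (∀ i, ∀ σ ∈ T i, ∀ j, σ (x j) ∈ 𝒪[(P i).K]) →
      ∀ (R : ι → ℝ) (R0 : ℝ), (∀ i, R i = (T i).card / finrank ℚ F * D) →
        R0 = T0.card / finrank ℚ F * D →
        Bounds n P R (fun i => R i ^ (1 + 1 / (n : ℝ))) R0 (R0 ^ (1 + 1 / (n : ℝ))) D δ (height f)

open Pool.Agent.Q188.RV (mom fib topb top fin exists_k)

/-- the place as a structure of the helper files -/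
noncomputable def Place.cv (P : Place) : Pool.Agent.Y642.LZ.Place.{0} :=
  { p := P.p, hp := P.hp, K := P.K, e := P.e, he := P.he, ram := P.ram }

lemma card_real {L : Type} [Field L] [NumberField L] (T0 : Finset (L →+* ℝ)) :
    T0.card ≤ InfinitePlace.nrRealPlaces L := by
  classical
  rw [← InfinitePlace.card_real_embeddings L, Fintype.card_subtype]
  refine Finset.card_le_card_of_injOn (fun τ => Complex.ofRealHom.comp τ) ?_ ?_
  · intro τ _
    rw [Finset.mem_coe, Finset.mem_filter]
    refine ⟨Finset.mem_univ _, ?_⟩
    rw [ComplexEmbedding.isReal_iff]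
    ext y
    exact Complex.conj_ofReal _
  · intro τ _ τ' _ h
    ext y
    have h1 := RingHom.congr_fun h y
    exact Complex.ofReal_injective h1

lemma deg_pos {n : ℕ} (B : IntermediateField ℚ Qb) (y : Fin n → Qb) : 1 ≤ deg B y := by
  have h1 : FiniteDimensional B (IntermediateField.adjoin B (Set.range y)) :=
    IntermediateField.finiteDimensional_adjoin fun y _ =>
      (Algebra.IsIntegral.isIntegral (R := ℚ) y).tower_top
  exact (finrank_pos : 0 < finrank B (IntermediateField.adjoin B (Set.range y)))

lemma bounds_of {n : ℕ} (hn : 1 ≤ n) {ι : Type v} [Fintype ι] (P : ι → Place) {m M : ι → ℝ}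
    {m0 M0 D h : ℝ} {δ : ℕ} (hδ : 1 ≤ δ) (hD1 : 1 ≤ D) (hm : ∀ i, 0 ≤ m i) (hm0 : 0 ≤ m0)
    (h1 : gainSum n P m M M0 D ≤ D * Real.log D + 7 * n * m0 + 4 * (D ^ 2 / δ ^ (n - 1)) * h) :
    Bounds n P m M m0 M0 D δ h := by
  refine ⟨h1, fun hl hX => ?_⟩
  exact fin hn Finset.univ (fun i => (P i).cv) hδ hD1 hm hm0 h1 (fun i _ => hl i) rfl hX

/-- **Rémond's inequality relative to any field, at points with many local or real conjugates.** -/
theorem result {n : ℕ} (hn : 1 ≤ n) (B : IntermediateField ℚ Qb) :
    (∀ y : Fin n → Qb, ∃ k : IntermediateField ℚ Qb, NumberField k ∧ k ≤ B ∧ deg k y = deg B y) ∧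
    ∀ δ : ℕ, 1 ≤ δ → BlockBounds.{v} n B δ ∧ ProportionBounds.{v} n B δ := by
  classical
  refine ⟨fun y => ?_, fun δ hδ => ⟨?_, ?_⟩⟩
  · obtain ⟨k, h1, h2, h3⟩ := exists_k B y
    exact ⟨k, { to_charZero := inferInstance, to_finiteDimensional := h2 }, h1, h3⟩
  · intro k F _ _ _ _ _ x φ f hf hgen hkB hD hobs ι _ P hinj T T0 hT hT0
    have hinj' : Set.InjOn (fun i => (P i).cv.p) (Finset.univ : Finset ι) := fun i _ j _ h =>
      hinj h
    refine bounds_of hn P hδ (by rw [hD]; exact_mod_cast deg_pos B _)
      (fun i => by unfold mean; positivity) (by unfold mean; positivity) ?_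
    have h1 := topb (k := k) (F := F) hn (x := x) hgen
      (fun j => (hf j).1) (fun j => (hf j).2) (B := B) (Ω := Qb) φ
      ((φ.comp (algebraMap k F)).codRestrict B hkB) (fun c => rfl) hδ
      hobs Finset.univ (fun i => (P i).cv) hinj' T (fun i _ => hT i) T0
      (fun σ hσ j => by
        obtain ⟨t, ht⟩ := hT0 σ hσ j
        rw [← ht, Complex.ofReal_re]) rfl
    exact h1
  · intro F _ _ x φ f D hf hgen hD hobs ι _ P hinj T T0 hT R R0 hR hR0
    have hinj' : Set.InjOn (fun i => (P i).cv.p) (Finset.univ : Finset ι) := fun i _ j _ h =>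
      hinj h
    have hD1 : 1 ≤ D := by rw [hD]; exact_mod_cast deg_pos B _
    refine bounds_of hn P hδ hD1 (fun i => by rw [hR]; positivity) (by rw [hR0]; positivity) ?_
    exact top (L := F) hn (x := x) hgen (fun j => (hf j).1)
      (fun j => (hf j).2) φ B hδ hobs Finset.univ
      (fun i => (P i).cv) hinj' T (fun i _ => hT i) (card_real T0) (R := R) (R0 := R0) hD
      hR hR0

end Pool.Agent.Results.MP_187c26_nt.RelativeLocalConjugates
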